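import Pool.Agent.Q28.MB.Main

/-!
# Murre's conjecture (B): from one Chow-Kunneth decomposition to all, and phantoms

`𝒱` is a class of smooth projective geometrically irreducible varieties over the field `k` closed
under products (for example all of them), `C` the Chow groups with rational coefficients (in the
form of their formal properties, `IsChowProj`) and `H` a Weil cohomology theory (`IsWeilProj`).

(1) If no homologically trivial self-correspondence of `X` of degree zero acts as a non-zero
idempotent on `CH^i(X)` (for example if they are nilpotent), then each half of (B) in codimension `i`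
passes from one Chow-Kunneth decomposition of `X` to all.
(2) Conversely, if (B) holds for all decompositions of `X`, then the phantom summands of the
`h^a(X)` act as zero on `CH(X)`, for all decompositions.
-/

open CategoryTheory AlgebraicGeometry

set_option autoImplicit false

universe u v w

namespace Pool.Agent.Results.MP_d6e134_ag.AllDecompositions

open Pool.Agent.H914 Pool.Agent.W492.BB Pool.Agent.TH133 Pool.Agent.Q28 Pool.Agent.Q28.MB

/-- Murre's conjecture (B) for one and for all Chow-Kunneth decompositions of a variety. -/
theorem result {k : Type u} [Field k] {𝒱 : VarClass k} (C : TheoryData.{u, v, 0} 𝒱 ℚ)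
    [IsChowProj C] {K : Type w} [Field K] (H : WeilTheoryData.{u, v, w} C K) [IsWeilProj H]
    (X : 𝒱.Obj) :
    (∀ i : ℕ, MD.NoIdempotentActionAt H X i →
      ∀ π π', IsCK H X π → IsCK H X π' →
        (SatisfiesB0At π i → SatisfiesB0At π' i) ∧ (SatisfiesB1At π i → SatisfiesB1At π' i)) ∧
    (MurreB0 H X → MurreB1 H X → ∀ π, IsCK H X π → MD.PhantomsActTrivially H π) :=
  ⟨fun i => (main C H).1 X i, (main C H).2.1 X⟩

end Pool.Agent.Results.MP_d6e134_ag.AllDecompositions
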