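import Pool.Agent.Q187.MC.ConvM

/-!
# Murre's conjecture (B) for products of curves and algebraically trivial cycles

For every `d` we show that Murre's conjecture (B) holds for all products of at most `d` complex
curves (and all their Chow-Kunneth decompositions) if and only if, for every curve `T` and all
`j ≥ 1` with `2 j + 1 ≤ d`, the motive `h^1(T)^{⊗ 2 j}` has no nonzero algebraically trivial classes
of codimension `j`; equivalently `CH^j(h^1(T)^{⊗(2 j + 1)}) = 0`.
-/

open CategoryTheory AlgebraicGeometry

universe u v w

namespace Pool.Agent.Results.MP_d6e134_ag.ProductsOfCurves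

open Pool.Agent.H914 Pool.Agent.H914.VarClass Pool.Agent.H914.VarClass.Obj Pool.Agent.W492.BB
  Pool.Agent.TH133 Pool.Agent.Q187.AJS Pool.Agent.Q187.BCS Pool.Agent.Q187.MCS
  Pool.Agent.Q28.MB

/-- **Murre's conjecture (B) for products of at most `d` curves.** Let `C` be the Chow theory and
`H` a Weil cohomology theory on a class of smooth projective varieties closed under products.
Assume the theorem of Bloch and Srinivas on families of cycles over curves (`FibreProperty`), that
any two curves are dominated by a third one, and that homologically trivial self-correspondences of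
products of curves act nilpotently on the Chow groups (Kimura); all this is true for varieties over
an uncountable algebraically closed field. For every `d` the following are equivalent.

1. (B) holds for all products of at most `d` curves, all their Chow-Kunneth decompositions and all
  codimensions.
2. Every product of at most `d` curves has one Chow-Kunneth decomposition for which the first half
  of (B), `F^0 CH^i = CH^i`, holds.
3. For all curves `T` and all `j ≥ 1` with `2 j + 1 ≤ d`, `CH^j(h^1(T)^{⊗(2 j + 1)}) = 0`.
4. For all curves `T` and all `j ≥ 1` with `2 j + 1 ≤ d`, algebraically trivial classes in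
  `CH^j(h^1(T)^{⊗ 2 j})` are zero. -/
theorem result {k : Type u} [Field k] {𝒱 : VarClass k} {C : TheoryData.{u, v, 0} 𝒱 ℚ}
    [IsChowProj C] {K : Type w} [Field K] {H : WeilTheoryData.{u, v, w} C K} [IsWeilProj H]
    (hF : FibreProperty C) (hc : CommonCovers C)
    (hK : ∀ Z : 𝒱.Obj, IsProductOfCurves Z → NilpotentAction C H Z) (d : ℕ) :
    List.TFAE [
      ∀ Z : 𝒱.Obj, IsProductOfCurves Z → Z.dim ≤ d → MurreB0 H Z ∧ MurreB1 H Z,
      ∀ Z : 𝒱.Obj, IsProductOfCurves Z → Z.dim ≤ d →
        ∃ π, IsCK H Z π ∧ ∀ i, SatisfiesB0At π i,
      ∀ j : ℕ, 1 ≤ j → 2 * j + 1 ≤ d → NextVanishing C j,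
      ∀ j : ℕ, 1 ≤ j → 2 * j + 1 ≤ d → AlgebraicMiddleVanishing C H j] :=
  main_b hF hc hK d

end Pool.Agent.Results.MP_d6e134_ag.ProductsOfCurves
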