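import Mathlib
import Pool.Agent.Q58.Scal.QMurEx

/-!
# Murre's conjecture (B) for zero-cycles on quotients of products of curves

Let `X` be a product of `d` smooth proper integral curves `C_t` (repetitions allowed) over an
algebraically closed field `k` (for instance `ℂ`), `G` a finite group of scalar automorphisms of
`X` (`ScalarMor`: they act on the Albanese variety `∏_t J(C_t)^{n_t}` through rational matrices),
`π : X → S` the quotient by `G` and `e` the sum of the elements of `G`, so that `e_* = π^* π_*`.
We consider the Chow-Künneth decompositions `Z^0, ..., Z^{2d}` of `S` by correspondences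
`Z^j = (π × π)_* c_j`, where `c_j` is a linear combination of graphs of scalar endomorphisms of `X`.
They exist, and all of them induce the same filtration
`F^ν CH_0(S)_ℚ = (Z^{2d-ν} + ... + Z^0)_* CH_0(S)_ℚ`: `F^ν` is the image of the group of the
classes in `CH_0(X)` which are killed by all scalar morphisms to products of less than `ν` of the
curves.  Moreover `F^0` is everything, `F^1` consists of the classes of degree zero, `F^2` is the
kernel of the Albanese map, and `F^{d+1} = 0`.
-/

namespace Pool.Agent.Results.MP_d6e134_ag.QuotientsOfProducts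

open AlgebraicGeometry CategoryTheory Limits Q58.Chow

universe u

theorem result {k : Type u} [Field k] [IsAlgClosed k] {T : Type} [Fintype T] [DecidableEq T]
    (C : T → Sch k) [∀ t, IsCurve (C t)] (g : T → ℕ) (hg : ∀ t, genus (C t) = g t)
    (n : T → ℕ) (d : ℕ) (hd : ∑ t, n t = d) (S : Sch k) (π : powX C n ⟶ S)
    (hπ : OntoPoints π) (e : PowMor C n n →₀ ℚ) (he : Averages e π) :
    AllInduceOn g d π e ∧ HasMurreEnds d (InImage π) ∧
      (FactorsThrough e π → HasQuotDecomposition g d π e ∧
        IsAlbaneseKernel e π (InImage π 2)) := by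
  refine ⟨fun c Z hZ ν w => ?_, imageFil_ends hd hπ, fun hk => ⟨?_, imageFil_two he hk⟩⟩
  · rw [quotFil_eq hg hd hπ he hZ ν]
    rfl
  by_cases hne : Nonempty (Pt (powX C n))
  · obtain ⟨x₀⟩ := hne
    exact exists_quotDecomposition hg (fun t j => x₀ ≫ projX C _ t j) hd hπ he hk
  · have h0 : ∀ z : CH0 (powX C n), z = 0 := by
      intro z
      obtain ⟨z, rfl⟩ := Submodule.Quotient.mk_surjective _ z
      have : z = 0 := by ext x; exact (hne ⟨x⟩).elim
      rw [this]
      rfl
    have h1 : ∀ w : CH0 S, w = 0 := by
      intro w
      obtain ⟨z, rfl⟩ := push_surjective hπ w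
      rw [h0 z, map_zero]
    refine ⟨fun _ => 0, fun _ => 0, fun j _ => LinearMap.ext fun z => ?_,
      fun j _ => LinearMap.ext fun w => ?_, LinearMap.ext fun w => ?_, ?_⟩
    · rw [h1 (quotAct π e 0 z)]
      rfl
    · rfl
    · rw [h1 w, map_zero, map_zero]
    · intro i _ j _ _
      apply zeroOnForms_comp_left hg
      apply zeroOnForms_comp_right hg
      intro u s _ _
      rfl

end Pool.Agent.Results.MP_d6e134_ag.QuotientsOfProducts
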